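import Pool.Agent.Helper38.E1.Tree

/-!
# Weak ergodicity for homomorphisms of bounded difference level
-/

namespace Pool.Agent.Helper38.E1

open Pool.Agent.Helper64.E0 (TLe RO TEq EvEq join join_even join_odd)

theorem ev_symm {x y : ℕ → Bool} (h : EvEq x y) : EvEq y x := by
  obtain ⟨N, hN⟩ := h
  exact ⟨N, fun n hn => (hN n hn).symm⟩

/-- the string `ρ` followed by `z` -/
def app (ρ : List Bool) (z : ℕ → Bool) (i : ℕ) : Bool :=
  if i < ρ.length then ρ.getD i false else z (i - ρ.length)

theorem tle_app' (ρ : List Bool) (z : ℕ → Bool) : TLe z (app ρ z) := by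
  rw [← RO.iff_tle]
  have h1 : Primrec fun n : ℕ => n + ρ.length := Primrec.nat_add.comp Primrec.id (Primrec.const _)
  have h2 := (RO.iff_tle.2 (TLe.refl (app ρ z))).comp (RO.prim h1)
  have h3 : (fun n => (z n).toNat) = fun n => (app ρ z (n + ρ.length)).toNat := by
    funext n
    rw [app, if_neg (by omega), Nat.add_sub_cancel]
  rw [h3]
  exact h2

theorem tle_app (ρ : List Bool) (z : ℕ → Bool) : TLe (app ρ z) z := by
  rw [← RO.iff_tle]
  have h1 : Primrec fun n : ℕ => n - ρ.length := Primrec.nat_sub.comp Primrec.id (Primrec.const _)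
  have h2 : RO z fun n => Nat.pair n (z (n - ρ.length)).toNat :=
    (RO.prim Primrec.id).pair ((RO.iff_tle.2 (TLe.refl z)).comp (RO.prim h1))
  have hu : Primrec Nat.unpair := Primrec.unpair
  have h3 : Primrec fun m : ℕ => if m.unpair.1 < ρ.length then
      (ρ.getD m.unpair.1 false).toNat else m.unpair.2 := by
    refine Primrec.ite (PrimrecRel.comp Primrec.nat_lt (Primrec.fst.comp hu) (Primrec.const _)) ?_
      (Primrec.snd.comp hu)
    exact (Primrec.dom_bool Bool.toNat).comp
      ((Primrec.list_getD false).comp (Primrec.const ρ) (Primrec.fst.comp hu))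
  have h4 := (RO.prim (z := z) h3).comp h2
  have h5 : (fun n => (app ρ z n).toNat) = fun n =>
      if (Nat.pair n (z (n - ρ.length)).toNat).unpair.1 < ρ.length then
        (ρ.getD (Nat.pair n (z (n - ρ.length)).toNat).unpair.1 false).toNat
      else (Nat.pair n (z (n - ρ.length)).toNat).unpair.2 := by
    funext n
    simp only [Nat.unpair_pair]
    unfold app
    split_ifs <;> rfl
  rw [h5]
  exact h4

theorem continuous_join_app (β : ℕ → Bool) (ρ : List Bool) :
    Continuous fun y : ℕ → Bool => join β (app ρ y) := by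
  refine continuous_pi fun i => ?_
  rcases Nat.even_or_odd' i with ⟨j, rfl | rfl⟩
  · simp only [join_even]
    exact continuous_const
  · simp only [join_odd]
    unfold app
    by_cases h : j < ρ.length
    · simp only [if_pos h]
      exact continuous_const
    · simp only [if_neg h]
      exact continuous_apply _

theorem prefix_pre (ρ : List Bool) (y : ℕ → Bool) {l : ℕ} (h : ρ.length ≤ l) :
    ρ <+: pre (app ρ y) l := by
  rw [List.prefix_iff_eq_take]
  refine List.ext_getElem ?_ fun i h1 h2 => ?_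
  · rw [List.length_take, pre_length]
    omega
  · rw [List.getElem_take]
    simp only [pre, List.getElem_map, List.getElem_range]
    rw [app, if_pos h1, List.getD_eq_getElem _ _ h1]

theorem antitone {V : ℕ → Set (ℕ → Bool)} (h : ∀ i, V (i + 1) ⊆ V i) {i j : ℕ} (hij : i ≤ j) :
    V j ⊆ V i := antitone_nat_of_succ_le h hij

theorem val_eq {V : ℕ → Set (ℕ → Bool)} (h : ∀ i, V (i + 1) ⊆ V i) {m : ℕ} {x : ℕ → Bool}
    (hm : x ∈ V m) (hm' : x ∉ V (m + 1)) {c : Bool}
    (hc : c = true ↔ ∃ i, Even i ∧ x ∈ V i ∧ x ∉ V (i + 1)) : c = decide (Even m) := by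
  rw [Bool.eq_iff_iff, hc, decide_eq_true_iff]
  constructor
  · rintro ⟨i, h1, h2, h3⟩
    rcases lt_trichotomy i m with h4 | rfl | h4
    · exact absurd (antitone h (Nat.succ_le_of_lt h4) hm) h3
    · exact h1
    · exact absurd (antitone h (Nat.succ_le_of_lt h4) h2) hm'
  · exact fun h1 => ⟨m, h1, hm, hm'⟩

theorem main (m : ℕ) : ∀ (b : ℕ → Bool) (g : (ℕ → Bool) → (ℕ → Bool))
    (V : ℕ → ℕ → Set (ℕ → Bool)) (H : Set ℕ), H.Infinite →
    (∀ z z', TEq (join b z) (join b z') → EvEq (g z) (g z')) → (∀ n i, IsOpen (V n i)) →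
    (∀ n i, V n (i + 1) ⊆ V n i) → (∀ n ∈ H, V n m = ∅) →
    (∀ n ∈ H, ∀ z, g z n = true ↔ ∃ i, Even i ∧ z ∈ V n i ∧ z ∉ V n (i + 1)) →
    ∃ H' ⊆ H, H'.Infinite ∧ ∃ (v : Bool) (q : ℕ → Bool), ∀ z, TLe q (join b z) →
      ∃ N, ∀ n ∈ H', N ≤ n → g z n = v := by
  classical
  induction m with
  | zero =>
    intro b g V H hH _ _ hdec hm hval
    refine ⟨H, le_rfl, hH, false, b, fun z _ => ⟨0, fun n hn _ => ?_⟩⟩
    by_contra h
    obtain ⟨i, -, h1, -⟩ := (hval n hn z).1 (Bool.eq_true_of_not_eq_false h)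
    have h2 := antitone (hdec n) (Nat.zero_le i) h1
    rw [hm n hn] at h2
    exact h2
  | succ m ih =>
    intro b g V H hH hinv hopen hdec hm hval
    by_cases hall : ∀ β, TLe b β → Good (fun n => V n m) H β
    · obtain ⟨p, hp⟩ := exists_param (fun n => V n m) H
      have hbβ := TLe.left b p
      have hg := hall _ hbβ
      set β := join b p with hβ
      refine ⟨Set.range (nn (fun n => V n m) H β), ?_, ?_, decide (Even m), β, fun z hz => ?_⟩
      · rintro _ ⟨j, rfl⟩
        exact nn_mem _ _ hg j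
      · exact Set.infinite_range_of_injective
          (strictMono_nat_of_lt_succ fun j => nn_lt _ _ hg j).injective
      · obtain ⟨hx1, hx2⟩ := hp β hg (TLe.right b p) z
        set x := pt (fun n => V n m) H β z with hx
        have h1 : TEq (join b z) (join b (join β x)) := by
          refine ⟨TLe.join (TLe.left _ _) (hx2.trans (TLe.right b (join β x))), ?_⟩
          exact TLe.join (TLe.left _ _) (TLe.join hz (hx1.trans (TLe.join hz (TLe.right b z))))
        obtain ⟨N, hN⟩ := hinv _ _ h1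
        refine ⟨N, ?_⟩
        rintro _ ⟨j, rfl⟩ hn
        rw [hN _ hn]
        have h2 : join β x ∈ V (nn (fun n => V n m) H β j) m := pt_mem (fun n => V n m) H hg z j
        refine val_eq (hdec _) h2 ?_ (hval _ (nn_mem _ _ hg j) _)
        rw [hm _ (nn_mem _ _ hg j)]
        exact Set.notMem_empty _
    · push Not at hall
      obtain ⟨β, hbβ, hβ⟩ := hall
      unfold Good at hβ
      push Not at hβ
      obtain ⟨E, N, hQ⟩ := hβ
      obtain ⟨ρ, -, hρ⟩ : ∃ ρ ∈ E, {n : ℕ | n ∈ H ∧ N ≤ n ∧ ∀ ρ' : List Bool, ρ <+: ρ' →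
          ¬ Hit (V n m) β ρ'}.Infinite := by
        by_contra hcon
        push Not at hcon
        have h1 : (⋃ ρ ∈ E, {n : ℕ | n ∈ H ∧ N ≤ n ∧ ∀ ρ' : List Bool, ρ <+: ρ' →
            ¬ Hit (V n m) β ρ'}).Finite :=
          E.finite_toSet.biUnion fun ρ hρ => hcon ρ hρ
        obtain ⟨n, hn, hn'⟩ := (hH.sdiff (h1.union (Set.finite_lt_nat N))).nonempty
        have hNn : N ≤ n := by
          by_contra h2
          exact hn' (Or.inr (not_le.1 h2))
        have h2 : ∀ ρ ∈ E, ∃ ρ' : List Bool, ρ <+: ρ' ∧ Hit (V n m) β ρ' := by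
          intro ρ hρ
          by_contra h3
          push Not at h3
          exact hn' (Or.inl (Set.mem_biUnion hρ ⟨hn, hNn, h3⟩))
        choose! F hF using h2
        refine hQ (Nat.pair n (E.sup fun ρ => Encodable.encode (F ρ))) ?_
        refine ⟨by rwa [Nat.unpair_pair], by rwa [Nat.unpair_pair], fun ρ hρ => ⟨F ρ, ?_, ?_⟩⟩
        · rw [Nat.unpair_pair]
          exact Finset.le_sup (f := fun ρ => Encodable.encode (F ρ)) hρ
        · rw [Nat.unpair_pair]
          exact hF ρ hρ
      have hup : ∀ y, TLe (join β y) (join b (join β (app ρ y))) := fun y =>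
        TLe.join ((TLe.left β _).trans (TLe.right b _))
          ((tle_app' ρ y).trans ((TLe.right β _).trans (TLe.right b _)))
      have hdn : ∀ y, TLe (join b (join β (app ρ y))) (join β y) := fun y =>
        TLe.join (hbβ.trans (TLe.left _ _))
          (TLe.join (TLe.left _ _) ((tle_app ρ y).trans (TLe.right _ _)))
      obtain ⟨H', hH', hinf, v, q, hq⟩ := ih β (fun y => g (join β (app ρ y)))
        (fun n i => {y | join β (app ρ y) ∈ V n i}) _ hρ
        (fun z z' h => hinv _ _ ⟨(hdn z).trans (TLe.trans h.1 (hup z')),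
          (hdn z').trans (TLe.trans h.2 (hup z))⟩)
        (fun n i => (hopen n i).preimage (continuous_join_app β ρ))
        (fun n i y hy => hdec n i hy)
        (fun n hn => by
          rw [Set.eq_empty_iff_forall_notMem]
          intro y hy
          obtain ⟨l₀, hl₀⟩ := hit_of_mem (hopen n m) hy
          exact hn.2.2 _ (prefix_pre ρ y (le_max_right l₀ _)) (hl₀ _ (le_max_left _ _)))
        (fun n hn z => hval n hn.1 _)
      refine ⟨H', fun n hn => (hH' hn).1, hinf, v, join β q, fun z hz => ?_⟩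
      have hβz := (TLe.left β q).trans hz
      have hqz := (TLe.right β q).trans hz
      obtain ⟨N', hN'⟩ := hq z (hqz.trans (TLe.join (hbβ.trans (TLe.left _ _)) (TLe.right _ _)))
      have h1 : TEq (join b z) (join b (join β (app ρ z))) := by
        refine ⟨TLe.join (TLe.left _ _)
          ((tle_app' ρ z).trans ((TLe.right β _).trans (TLe.right b _))), ?_⟩
        exact TLe.join (TLe.left _ _) (TLe.join hβz ((tle_app ρ z).trans (TLe.right b z)))
      obtain ⟨N'', hN''⟩ := hinv _ _ h1
      refine ⟨max N' N'', fun n hn hn' => ?_⟩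
      rw [hN'' n (le_trans (le_max_right _ _) hn')]
      exact hN' n hn (le_trans (le_max_left _ _) hn')

theorem weak_ergodic (k : ℕ) (f : (ℕ → Bool) → (ℕ → Bool)) (V : ℕ → ℕ → Set (ℕ → Bool))
    (hopen : ∀ n i, IsOpen (V n i)) (hdec : ∀ n i, V n (i + 1) ⊆ V n i) (hk : ∀ n, V n k = ∅)
    (hf : ∀ n x, f x n = true ↔ ∃ i, Even i ∧ x ∈ V n i ∧ x ∉ V n (i + 1))
    (hinv : ∀ x y, TEq x y → EvEq (f x) (f y)) (H : Set ℕ) (hH : H.Infinite) :
    ∃ H' ⊆ H, H'.Infinite ∧ ∃ (v : Bool) (p : ℕ → Bool), ∀ x, TLe p x →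
      ∃ N, ∀ n ∈ H', N ≤ n → f x n = v := by
  have h0 : ∀ z : ℕ → Bool, TLe (fun _ => false) z := by
    intro z
    rw [← RO.iff_tle]
    exact RO.prim (Primrec.const 0)
  have hup : ∀ z : ℕ → Bool, TLe (join (fun _ => false) z) z := fun z =>
    TLe.join (h0 z) (TLe.refl z)
  obtain ⟨H', h1, h2, v, q, h3⟩ := main k (fun _ => false) f V H hH
    (fun z z' h => hinv _ _ ⟨(TLe.right _ z).trans (TLe.trans h.1 (hup z')),
      (TLe.right _ z').trans (TLe.trans h.2 (hup z))⟩)
    hopen hdec (fun n _ => hk n) (fun n _ z => hf n z)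
  exact ⟨H', h1, h2, v, q, fun x hx => h3 x (hx.trans (TLe.right _ _))⟩

end Pool.Agent.Helper38.E1
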