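import Pool.Agent.Helper64.E0.Turing

/-!
# Partial continuous maps of the Cantor space are computable in a parameter
-/

namespace Pool.Agent.Helper38.E1

open Pool.Agent.Helper64.E0 (TLe RO TEq EvEq)

/-- unbounded search -/
theorem ro_least {z : ℕ → Bool} {f g : ℕ → ℕ} (hf : RO z f)
    (h : ∀ a, f (Nat.pair a (g a)) = 0) (h' : ∀ a m, m < g a → f (Nat.pair a m) ≠ 0) :
    RO z g := by
  refine (Nat.RecursiveIn.rfind hf).of_eq fun a => ?_
  rw [Part.eq_some_iff]
  refine Nat.mem_rfind.2 ⟨?_, ?_⟩
  · simp [h a]
  · intro m hm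
    simp [h' a m hm]

/-- a code of the first `m` digits of `z` -/
def pcode (z : ℕ → Bool) : ℕ → ℕ
  | 0 => 0
  | m + 1 => Nat.pair (pcode z m) (z m).toNat

theorem pcode_inj {z z' : ℕ → Bool} :
    ∀ {m : ℕ}, pcode z m = pcode z' m → ∀ i < m, z i = z' i := by
  intro m
  induction m with
  | zero => intro _ i hi; omega
  | succ m ih =>
    intro h i hi
    rw [pcode, pcode, Nat.pair_eq_pair] at h
    rcases Nat.lt_succ_iff_lt_or_eq.1 hi with h1 | rfl
    · exact ih h.1 i h1
    · have h2 := h.2
      cases h3 : z i <;> cases h4 : z' i <;> simp_all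

theorem ro_pcode {y z : ℕ → Bool} (h : TLe z y) : RO y (pcode z) := by
  rw [← RO.iff_tle] at h
  have hu : Primrec Nat.unpair := Primrec.unpair
  have h1 : RO y fun p => Nat.pair p.unpair.2.unpair.2 (z p.unpair.2.unpair.1).toNat := by
    refine RO.pair (RO.prim ?_) (h.comp (RO.prim ?_))
    · exact Primrec.snd.comp (hu.comp (Primrec.snd.comp hu))
    · exact Primrec.fst.comp (hu.comp (Primrec.snd.comp hu))
  have h2 := Nat.RecursiveIn.prec (Nat.RecursiveIn.zero
    (O := {PFun.lift fun n => (y n).toNat})) h1
  have h3 : RO y fun n => Nat.pair 0 n :=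
    (RO.prim (Primrec.const 0)).pair (RO.prim Primrec.id)
  refine (Nat.RecursiveIn.comp h2 h3).of_eq fun n => ?_
  simp only [Part.bind_eq_bind, Part.bind_some, Nat.unpair_pair]
  induction n with
  | zero => rfl
  | succ n ih =>
    simp only [pcode]
    rw [ih]
    simp

/-- If every digit of `b w` is determined by finitely many digits of `a w`, then `b w` is computable
from `a w` and one parameter. -/
theorem exists_code {W : Type*} {a b : W → (ℕ → Bool)}
    (h : ∀ w n, ∃ m, ∀ w', (∀ i < m, a w i = a w' i) → b w n = b w' n) :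
    ∃ p : ℕ → Bool, ∀ w y, TLe p y → TLe (a w) y → TLe (b w) y := by
  classical
  let t : Bool → ℕ → Bool := fun v k => decide (∀ w, pcode (a w) k.unpair.1.unpair.2 = k.unpair.2 →
    b w k.unpair.1.unpair.1 = v)
  refine ⟨Pool.Agent.Helper64.E0.join (t true) (t false), fun w y hp hz => ?_⟩
  have ht := RO.iff_tle.2 ((TLe.left (t true) (t false)).trans hp)
  have hf := RO.iff_tle.2 ((TLe.right (t true) (t false)).trans hp)
  have hu : Primrec Nat.unpair := Primrec.unpair
  have hc : RO y fun k => Nat.pair k (pcode (a w) k.unpair.2) :=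
    (RO.prim Primrec.id).pair ((ro_pcode hz).comp (RO.prim (Primrec.snd.comp hu)))
  have h1 : RO y fun k => Nat.pair (t true (Nat.pair k (pcode (a w) k.unpair.2))).toNat
      (t false (Nat.pair k (pcode (a w) k.unpair.2))).toNat :=
    (ht.comp hc).pair (hf.comp hc)
  have h2 : RO y fun k => 1 - ((t true (Nat.pair k (pcode (a w) k.unpair.2))).toNat +
      (t false (Nat.pair k (pcode (a w) k.unpair.2))).toNat) := by
    have h3 : Primrec fun m : ℕ => 1 - (m.unpair.1 + m.unpair.2) :=
      Primrec.nat_sub.comp (Primrec.const 1)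
        (Primrec.nat_add.comp (Primrec.fst.comp hu) (Primrec.snd.comp hu))
    have h4 := (RO.prim (z := y) h3).comp h1
    simpa only [Nat.unpair_pair] using h4
  have hex : ∀ n, ∃ m, t true (Nat.pair (Nat.pair n m) (pcode (a w) m)) = true ∨
      t false (Nat.pair (Nat.pair n m) (pcode (a w) m)) = true := by
    intro n
    obtain ⟨m, hm⟩ := h w n
    refine ⟨m, ?_⟩
    have h5 : ∀ w', pcode (a w') m = pcode (a w) m → b w' n = b w n := fun w' h6 =>
      (hm w' fun i hi => (pcode_inj h6 i hi).symm).symm
    cases h7 : b w n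
    · right
      simp only [t, Nat.unpair_pair, decide_eq_true_iff]
      intro w' h6
      rw [h5 w' h6, h7]
    · left
      simp only [t, Nat.unpair_pair, decide_eq_true_iff]
      intro w' h6
      rw [h5 w' h6, h7]
  let g : ℕ → ℕ := fun n => Nat.find (hex n)
  have hg : RO y g := by
    refine ro_least h2 ?_ ?_
    · intro n
      have h5 := Nat.find_spec (hex n)
      simp only [Nat.unpair_pair]
      rcases h5 with h5 | h5
      · have : (t true (Nat.pair (Nat.pair n (g n)) (pcode (a w) (g n)))).toNat = 1 := by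
          rw [h5]; rfl
        omega
      · have : (t false (Nat.pair (Nat.pair n (g n)) (pcode (a w) (g n)))).toNat = 1 := by
          rw [h5]; rfl
        omega
    · intro n m hm
      have h5 := Nat.find_min (hex n) hm
      simp only [Nat.unpair_pair]
      push Not at h5
      have h6 : (t true (Nat.pair (Nat.pair n m) (pcode (a w) m))).toNat = 0 := by
        rw [(Bool.not_eq_true _).mp h5.1]; rfl
      have h7 : (t false (Nat.pair (Nat.pair n m) (pcode (a w) m))).toNat = 0 := by
        rw [(Bool.not_eq_true _).mp h5.2]; rfl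
      omega
  rw [← RO.iff_tle]
  have h5 : RO y fun n => (t true (Nat.pair (Nat.pair n (g n)) (pcode (a w) (g n)))).toNat :=
    ht.comp (((RO.prim Primrec.id).pair hg).pair ((ro_pcode hz).comp hg))
  have h6 : (fun n => (b w n).toNat) =
      fun n => (t true (Nat.pair (Nat.pair n (g n)) (pcode (a w) (g n)))).toNat := by
    funext n
    congr 1
    have h7 := Nat.find_spec (hex n)
    change t true (Nat.pair (Nat.pair n (g n)) (pcode (a w) (g n))) = true ∨
      t false (Nat.pair (Nat.pair n (g n)) (pcode (a w) (g n))) = true at h7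
    have h8 : ∀ v, t v (Nat.pair (Nat.pair n (g n)) (pcode (a w) (g n))) = true → b w n = v := by
      intro v h9
      simp only [t, Nat.unpair_pair, decide_eq_true_iff] at h9
      exact h9 w rfl
    rcases h7 with h7 | h7
    · rw [h7, h8 _ h7]
    · have h9 := h8 _ h7
      rw [h9]
      symm
      by_contra h10
      have h11 := h8 true (Bool.eq_true_of_not_eq_false h10)
      rw [h9] at h11
      exact absurd h11 (by decide)
  rw [h6]
  exact h5

end Pool.Agent.Helper38.E1
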