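import Pool.Agent.Helper38.E1.Search

/-!
# A search along a base

`V n` open sets, `H` a set of indices. For a base `β` such that for every finite set of strings there
are arbitrarily large `n ∈ H` for which all these strings have extensions forcing `β ⊕ z ∈ V n`, we
construct a tree of points `x` with `β ⊕ x ∈ V n` for infinitely many fixed `n ∈ H`, uniformly
computable in the base.
-/

namespace Pool.Agent.Helper38.E1

open Pool.Agent.Helper64.E0 (TLe RO TEq EvEq join join_even join_odd)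

/-- `β ⊕ z ∈ V` for all `z` extending the string `ρ`, by the first digits of `β` and `z` only -/
def Hit (V : Set (ℕ → Bool)) (β : ℕ → Bool) (ρ : List Bool) : Prop :=
  ∀ x : ℕ → Bool, (∀ i < ρ.length, x (2 * i) = β i ∧ x (2 * i + 1) = ρ.getD i false) → x ∈ V

theorem Hit.congr {V : Set (ℕ → Bool)} {β β' : ℕ → Bool} {ρ : List Bool}
    (h : ∀ i < ρ.length, β i = β' i) (h' : Hit V β ρ) : Hit V β' ρ := by
  intro x hx
  refine h' x fun i hi => ?_
  rw [h i hi]
  exact hx i hi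

theorem Hit.mem {V : Set (ℕ → Bool)} {β z : ℕ → Bool} {ρ : List Bool} (h : Hit V β ρ)
    (hz : ∀ i < ρ.length, z i = ρ.getD i false) : join β z ∈ V := by
  refine h _ fun i hi => ?_
  rw [join_even, join_odd]
  exact ⟨rfl, hz i hi⟩

/-- the first `l` digits -/
def pre (z : ℕ → Bool) (l : ℕ) : List Bool := (List.range l).map z

theorem pre_length (z : ℕ → Bool) (l : ℕ) : (pre z l).length = l := by simp [pre]

theorem pre_getD (z : ℕ → Bool) {l i : ℕ} (h : i < l) : (pre z l).getD i false = z i := by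
  simp [pre, List.getD, h]

theorem open_nhd {V : Set (ℕ → Bool)} (hV : IsOpen V) {x : ℕ → Bool} (hx : x ∈ V) :
    ∃ m, ∀ y : ℕ → Bool, (∀ i < m, y i = x i) → y ∈ V := by
  obtain ⟨s, ⟨x0, n, rfl⟩, h1, h2⟩ :=
    (PiNat.isTopologicalBasis_cylinders (fun _ : ℕ => Bool)).mem_nhds_iff.1 (hV.mem_nhds hx)
  refine ⟨n, fun y hy => h2 ?_⟩
  rw [PiNat.mem_cylinder_iff] at h1 ⊢
  intro i hi
  rw [hy i hi, h1 i hi]

theorem hit_of_mem {V : Set (ℕ → Bool)} (hV : IsOpen V) {β z : ℕ → Bool} (h : join β z ∈ V) :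
    ∃ l₀, ∀ l, l₀ ≤ l → Hit V β (pre z l) := by
  obtain ⟨m, hm⟩ := open_nhd hV h
  refine ⟨m, fun l hl x hx => hm x fun i hi => ?_⟩
  rw [pre_length] at hx
  rcases Nat.even_or_odd' i with ⟨j, rfl | rfl⟩
  · rw [join_even]
    exact (hx j (by omega)).1
  · rw [join_odd, (hx j (by omega)).2, pre_getD]
    omega

/-- the first extension of `ρ` forcing `β ⊕ z ∈ V` -/
noncomputable def ext (V : Set (ℕ → Bool)) (β : ℕ → Bool) (ρ : List Bool) : List Bool :=
  ((Encodable.decode (sInf {c : ℕ | ∃ ρ' : List Bool, Encodable.encode ρ' = c ∧ ρ <+: ρ' ∧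
    Hit V β ρ'})) : Option (List Bool)).getD []

theorem ext_eq {V : Set (ℕ → Bool)} {β : ℕ → Bool} {ρ ρ' : List Bool} (h : ρ <+: ρ')
    (h' : Hit V β ρ') (h'' : ∀ σ : List Bool, Encodable.encode σ < Encodable.encode ρ' →
      ρ <+: σ → ¬ Hit V β σ) : ext V β ρ = ρ' := by
  have h1 : sInf {c : ℕ | ∃ ρ' : List Bool, Encodable.encode ρ' = c ∧ ρ <+: ρ' ∧ Hit V β ρ'} =
      Encodable.encode ρ' := by
    refine le_antisymm (Nat.sInf_le ⟨ρ', rfl, h, h'⟩) (le_csInf ⟨_, ρ', rfl, h, h'⟩ ?_)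
    rintro c ⟨σ, rfl, h2, h3⟩
    by_contra h4
    exact h'' σ (not_le.1 h4) h2 h3
  rw [ext, h1, Encodable.encodek]
  rfl

theorem ext_spec {V : Set (ℕ → Bool)} {β : ℕ → Bool} {ρ : List Bool}
    (h : ∃ ρ' : List Bool, ρ <+: ρ' ∧ Hit V β ρ') :
    ρ <+: ext V β ρ ∧ Hit V β (ext V β ρ) ∧ ∀ ρ' : List Bool, ρ <+: ρ' → Hit V β ρ' →
      Encodable.encode (ext V β ρ) ≤ Encodable.encode ρ' := by
  obtain ⟨ρ₀, h0, h0'⟩ := h
  have h1 : {c : ℕ | ∃ ρ' : List Bool, Encodable.encode ρ' = c ∧ ρ <+: ρ' ∧ Hit V β ρ'}.Nonempty :=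
    ⟨_, ρ₀, rfl, h0, h0'⟩
  obtain ⟨ρ', h2, h3, h4⟩ := Nat.sInf_mem h1
  have h5 : ext V β ρ = ρ' := by
    rw [ext, ← h2, Encodable.encodek]
    rfl
  rw [h5]
  refine ⟨h3, h4, fun σ h6 h7 => ?_⟩
  rw [h2]
  exact Nat.sInf_le ⟨σ, rfl, h6, h7⟩

theorem ext_congr {V : Set (ℕ → Bool)} {β β' : ℕ → Bool} {ρ : List Bool} {s : ℕ}
    (h : ∃ ρ' : List Bool, Encodable.encode ρ' ≤ s ∧ ρ <+: ρ' ∧ Hit V β ρ')
    (hβ : ∀ i < s, β i = β' i) : ext V β' ρ = ext V β ρ := by
  obtain ⟨ρ₀, hs, h0, h0'⟩ := h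
  obtain ⟨h1, h2, h3⟩ := ext_spec ⟨ρ₀, h0, h0'⟩
  have h4 := (h3 _ h0 h0').trans hs
  have key : ∀ σ : List Bool, Encodable.encode σ ≤ s → ∀ i < σ.length, β i = β' i :=
    fun σ hσ i hi => hβ i (lt_of_lt_of_le hi ((Encodable.length_le_encode σ).trans hσ))
  refine ext_eq h1 (h2.congr (key _ h4)) fun σ h5 h6 h7 => ?_
  have h8 : Hit V β σ := h7.congr fun i hi => (key σ (by omega) i hi).symm
  have := h3 σ h6 h8
  omega

section

variable (V : ℕ → Set (ℕ → Bool)) (H : Set ℕ)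

/-- `t` is a pair of `n ∈ H`, `n ≥ N`, and a bound for the extensions of the strings in `E` -/
def Q (β : ℕ → Bool) (E : Finset (List Bool)) (N t : ℕ) : Prop :=
  t.unpair.1 ∈ H ∧ N ≤ t.unpair.1 ∧ ∀ ρ ∈ E, ∃ ρ' : List Bool,
    Encodable.encode ρ' ≤ t.unpair.2 ∧ ρ <+: ρ' ∧ Hit (V t.unpair.1) β ρ'

theorem Q.congr {β β' : ℕ → Bool} {E : Finset (List Bool)} {N t : ℕ}
    (hβ : ∀ i < t, β i = β' i) (h : Q V H β E N t) : Q V H β' E N t := by
  refine ⟨h.1, h.2.1, fun ρ hρ => ?_⟩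
  obtain ⟨ρ', h1, h2, h3⟩ := h.2.2 ρ hρ
  refine ⟨ρ', h1, h2, h3.congr fun i hi => hβ i ?_⟩
  have h4 := Encodable.length_le_encode ρ'
  have h5 := Nat.unpair_right_le t
  omega

/-- the bases for which the search never fails -/
def Good (β : ℕ → Bool) : Prop := ∀ E N, ∃ t, Q V H β E N t

/-- the first pair found -/
noncomputable def fst (β : ℕ → Bool) (E : Finset (List Bool)) (N : ℕ) : ℕ :=
  sInf {t | Q V H β E N t}

theorem fst_spec {β : ℕ → Bool} (hβ : Good V H β) (E : Finset (List Bool)) (N : ℕ) :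
    Q V H β E N (fst V H β E N) := Nat.sInf_mem (hβ E N)

theorem fst_congr {β β' : ℕ → Bool} (hβ : Good V H β) (E : Finset (List Bool)) (N : ℕ)
    (h : ∀ i < fst V H β E N, β i = β' i) : fst V H β' E N = fst V H β E N := by
  have h1 := (fst_spec V H hβ E N).congr V H h
  refine le_antisymm (Nat.sInf_le h1) (le_csInf ⟨_, h1⟩ fun t ht => ?_)
  by_contra h2
  refine Nat.notMem_of_lt_sInf (not_le.1 h2) ?_
  exact Q.congr V H (fun i hi => (h i (by omega)).symm) ht

/-- the finite set of strings and the lower bound for the index, after `j` steps -/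
noncomputable def st (β : ℕ → Bool) : ℕ → Finset (List Bool) × ℕ
  | 0 => ({[]}, 0)
  | j + 1 =>
    (((st β j).1.image fun ρ => ext (V (fst V H β (st β j).1 (st β j).2).unpair.1) β ρ ++ [false]) ∪
      ((st β j).1.image fun ρ => ext (V (fst V H β (st β j).1 (st β j).2).unpair.1) β ρ ++ [true]),
      (fst V H β (st β j).1 (st β j).2).unpair.1 + 1)

/-- the pair found in step `j` -/
noncomputable def tt (β : ℕ → Bool) (j : ℕ) : ℕ := fst V H β (st V H β j).1 (st V H β j).2

/-- the index found in step `j` -/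
noncomputable def nn (β : ℕ → Bool) (j : ℕ) : ℕ := (tt V H β j).unpair.1

/-- the string after `j` steps, along `w` -/
noncomputable def pth (β w : ℕ → Bool) : ℕ → List Bool
  | 0 => []
  | j + 1 => ext (V (nn V H β j)) β (pth β w j) ++ [w j]

/-- the point of the tree given by `w` -/
noncomputable def pt (β w : ℕ → Bool) (i : ℕ) : Bool := (pth V H β w (i + 1)).getD i false

theorem pth_mem (β w : ℕ → Bool) (j : ℕ) : pth V H β w j ∈ (st V H β j).1 := by
  induction j with
  | zero => simp [pth, st]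
  | succ j ih =>
    rw [pth, st, Finset.mem_union, Finset.mem_image, Finset.mem_image]
    cases hw : w j
    · exact Or.inl ⟨_, ih, rfl⟩
    · exact Or.inr ⟨_, ih, rfl⟩

theorem nn_mem {β : ℕ → Bool} (hβ : Good V H β) (j : ℕ) : nn V H β j ∈ H :=
  (fst_spec V H hβ _ _).1

theorem nn_lt {β : ℕ → Bool} (hβ : Good V H β) (j : ℕ) : nn V H β j < nn V H β (j + 1) :=
  (fst_spec V H hβ (st V H β (j + 1)).1 (st V H β (j + 1)).2).2.1

theorem pth_ext {β : ℕ → Bool} (hβ : Good V H β) (w : ℕ → Bool) (j : ℕ) :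
    ∃ ρ' : List Bool, Encodable.encode ρ' ≤ tt V H β j ∧ pth V H β w j <+: ρ' ∧
      Hit (V (nn V H β j)) β ρ' := by
  obtain ⟨ρ', h1, h2, h3⟩ := (fst_spec V H hβ (st V H β j).1 (st V H β j).2).2.2 _
    (pth_mem V H β w j)
  exact ⟨ρ', h1.trans (Nat.unpair_right_le _), h2, h3⟩

theorem pth_spec {β : ℕ → Bool} (hβ : Good V H β) (w : ℕ → Bool) (j : ℕ) :
    pth V H β w j <+: ext (V (nn V H β j)) β (pth V H β w j) ∧
      Hit (V (nn V H β j)) β (ext (V (nn V H β j)) β (pth V H β w j)) := by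
  obtain ⟨ρ', -, h2, h3⟩ := pth_ext V H hβ w j
  have h := ext_spec ⟨ρ', h2, h3⟩
  exact ⟨h.1, h.2.1⟩

theorem pth_prefix {β : ℕ → Bool} (hβ : Good V H β) (w : ℕ → Bool) {j k : ℕ} (h : j ≤ k) :
    pth V H β w j <+: pth V H β w k := by
  induction k, h using Nat.le_induction with
  | base => exact List.prefix_rfl
  | succ k _ ih =>
    refine ih.trans ((pth_spec V H hβ w k).1.trans ?_)
    rw [pth]
    exact List.prefix_append _ _

theorem pth_length {β : ℕ → Bool} (hβ : Good V H β) (w : ℕ → Bool) (j : ℕ) :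
    j ≤ (pth V H β w j).length := by
  induction j with
  | zero => exact Nat.zero_le _
  | succ j ih =>
    have h1 := (pth_spec V H hβ w j).1.length_le
    rw [pth, List.length_append, List.length_singleton]
    omega

theorem getD_of_prefix {l l' : List Bool} (h : l <+: l') {i : ℕ} (hi : i < l.length) :
    l'.getD i false = l.getD i false := by
  obtain ⟨l'', rfl⟩ := h
  rw [List.getD_append _ _ _ _ hi]

theorem pt_eq {β : ℕ → Bool} (hβ : Good V H β) (w : ℕ → Bool) {j i : ℕ}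
    (hi : i < (pth V H β w j).length) : pt V H β w i = (pth V H β w j).getD i false := by
  have h1 := pth_length V H hβ w (i + 1)
  rcases le_total j (i + 1) with h | h
  · exact getD_of_prefix (pth_prefix V H hβ w h) hi
  · exact (getD_of_prefix (pth_prefix V H hβ w h) (by omega)).symm

theorem pt_mem {β : ℕ → Bool} (hβ : Good V H β) (w : ℕ → Bool) (j : ℕ) :
    join β (pt V H β w) ∈ V (nn V H β j) := by
  refine (pth_spec V H hβ w j).2.mem fun i hi => ?_
  have h1 : ext (V (nn V H β j)) β (pth V H β w j) <+: pth V H β w (j + 1) := by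
    rw [pth]
    exact List.prefix_append _ _
  rw [pt_eq V H hβ w (lt_of_lt_of_le hi h1.length_le), getD_of_prefix h1 hi]

theorem pt_code {β : ℕ → Bool} (hβ : Good V H β) (w : ℕ → Bool) (j : ℕ) :
    pt V H β w (ext (V (nn V H β j)) β (pth V H β w j)).length = w j := by
  have h1 : (ext (V (nn V H β j)) β (pth V H β w j)).length < (pth V H β w (j + 1)).length := by
    rw [pth]
    simp
  rw [pt_eq V H hβ w h1, pth]
  rw [List.getD_append_right _ _ _ _ le_rfl]
  simp

theorem st_congr {β : ℕ → Bool} (hβ : Good V H β) (j : ℕ) :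
    ∃ m, ∀ β' : ℕ → Bool, (∀ i < m, β i = β' i) → st V H β' j = st V H β j := by
  induction j with
  | zero => exact ⟨0, fun _ _ => rfl⟩
  | succ j ih =>
    obtain ⟨m, hm⟩ := ih
    refine ⟨max m (tt V H β j), fun β' h => ?_⟩
    have h1 := hm β' fun i hi => h i (by omega)
    have h2 : fst V H β' (st V H β j).1 (st V H β j).2 = fst V H β (st V H β j).1 (st V H β j).2 :=
      fst_congr V H hβ _ _ fun i hi => h i (lt_of_lt_of_le hi (le_max_right _ _))
    rw [st, st, h1, h2]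
    have h3 : ∀ ρ ∈ (st V H β j).1,
        ext (V (fst V H β (st V H β j).1 (st V H β j).2).unpair.1) β' ρ =
        ext (V (fst V H β (st V H β j).1 (st V H β j).2).unpair.1) β ρ := by
      intro ρ hρ
      obtain ⟨ρ', h4, h5, h6⟩ := (fst_spec V H hβ (st V H β j).1 (st V H β j).2).2.2 ρ hρ
      exact ext_congr (s := tt V H β j) ⟨ρ', h4.trans (Nat.unpair_right_le _), h5, h6⟩
        fun i hi => h i (lt_of_lt_of_le hi (le_max_right _ _))
    have h4 : ∀ b : Bool, ((st V H β j).1.image fun ρ =>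
        ext (V (fst V H β (st V H β j).1 (st V H β j).2).unpair.1) β' ρ ++ [b]) =
        (st V H β j).1.image fun ρ =>
        ext (V (fst V H β (st V H β j).1 (st V H β j).2).unpair.1) β ρ ++ [b] := fun b =>
      Finset.image_congr fun ρ hρ => by
        simp only [h3 ρ hρ]
    rw [h4, h4]

theorem nn_congr {β : ℕ → Bool} (hβ : Good V H β) (j : ℕ) :
    ∃ m, tt V H β j ≤ m ∧ ∀ β' : ℕ → Bool, (∀ i < m, β i = β' i) → nn V H β' j = nn V H β j := by
  obtain ⟨m, hm⟩ := st_congr V H hβ j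
  refine ⟨max m (tt V H β j), le_max_right _ _, fun β' h => ?_⟩
  rw [nn, nn, tt, hm β' fun i hi => h i (lt_of_lt_of_le hi (le_max_left _ _)), tt]
  rw [fst_congr V H hβ _ _ fun i hi => h i (lt_of_lt_of_le hi (le_max_right _ _))]

theorem ext_nn_congr {β : ℕ → Bool} (hβ : Good V H β) (w : ℕ → Bool) (j : ℕ) :
    ∃ m, ∀ β' : ℕ → Bool, (∀ i < m, β i = β' i) →
      ext (V (nn V H β' j)) β' (pth V H β w j) = ext (V (nn V H β j)) β (pth V H β w j) := by
  obtain ⟨m, hm, hm'⟩ := nn_congr V H hβ j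
  refine ⟨m, fun β' h => ?_⟩
  rw [hm' β' h]
  exact ext_congr (pth_ext V H hβ w j) fun i hi => h i (by omega)

theorem pth_congr {β : ℕ → Bool} (hβ : Good V H β) (w : ℕ → Bool) (j : ℕ) :
    ∃ m, ∀ β' w' : ℕ → Bool, (∀ i < m, β i = β' i) → (∀ i < m, w i = w' i) →
      pth V H β' w' j = pth V H β w j := by
  induction j with
  | zero => exact ⟨0, fun _ _ _ _ => rfl⟩
  | succ j ih =>
    obtain ⟨m, hm⟩ := ih
    obtain ⟨m', hm'⟩ := ext_nn_congr V H hβ w j
    refine ⟨max (max m m') (j + 1), fun β' w' h h' => ?_⟩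
    rw [pth, pth, hm β' w' (fun i hi => h i (by omega)) (fun i hi => h' i (by omega)),
      hm' β' (fun i hi => h i (by omega)), h' j (by omega)]

theorem pth_congr' {β : ℕ → Bool} (hβ : Good V H β) (w : ℕ → Bool) (j : ℕ) :
    ∃ m, ∀ β' w' : ℕ → Bool, Good V H β' → (∀ i < m, β i = β' i) →
      (∀ i < m, pt V H β w i = pt V H β' w' i) → pth V H β' w' j = pth V H β w j := by
  induction j with
  | zero => exact ⟨0, fun _ _ _ _ _ => rfl⟩
  | succ j ih =>
    obtain ⟨m, hm⟩ := ih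
    obtain ⟨m', hm'⟩ := ext_nn_congr V H hβ w j
    refine ⟨max (max m m') ((ext (V (nn V H β j)) β (pth V H β w j)).length + 1),
      fun β' w' hβ' h h' => ?_⟩
    have h1 := hm β' w' hβ' (fun i hi => h i (by omega)) (fun i hi => h' i (by omega))
    have h2 := hm' β' (fun i hi => h i (by omega))
    have h3 := pt_code V H hβ' w' j
    rw [h1, h2] at h3
    rw [pth, pth, h1, h2, ← pt_code V H hβ w j, ← h3, h' _ (by omega)]

/-- The tree is uniformly computable in the base. -/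
theorem exists_param : ∃ p : ℕ → Bool, ∀ β, Good V H β → TLe p β → ∀ w,
    TLe (pt V H β w) (join β w) ∧ TLe w (join β (pt V H β w)) := by
  obtain ⟨p, hp⟩ := exists_code (W := {β : ℕ → Bool // Good V H β} × (ℕ → Bool))
    (a := fun q => join q.1.1 q.2) (b := fun q => pt V H q.1.1 q.2) (by
      rintro ⟨⟨β, hβ⟩, w⟩ n
      obtain ⟨m, hm⟩ := pth_congr V H hβ w (n + 1)
      refine ⟨2 * m, ?_⟩
      rintro ⟨⟨β', hβ'⟩, w'⟩ h
      simp only at h ⊢
      rw [pt, pt, hm β' w' (fun i hi => ?_) (fun i hi => ?_)]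
      · have := h (2 * i) (by omega)
        rwa [join_even, join_even] at this
      · have := h (2 * i + 1) (by omega)
        rwa [join_odd, join_odd] at this)
  obtain ⟨p', hp'⟩ := exists_code (W := {β : ℕ → Bool // Good V H β} × (ℕ → Bool))
    (a := fun q => join q.1.1 (pt V H q.1.1 q.2)) (b := fun q => q.2) (by
      rintro ⟨⟨β, hβ⟩, w⟩ n
      obtain ⟨m, hm⟩ := pth_congr' V H hβ w (n + 1)
      refine ⟨2 * m, ?_⟩
      rintro ⟨⟨β', hβ'⟩, w'⟩ h
      simp only at h ⊢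
      have h1 := hm β' w' hβ' (fun i hi => by
        have := h (2 * i) (by omega)
        rwa [join_even, join_even] at this) (fun i hi => by
        have := h (2 * i + 1) (by omega)
        rwa [join_odd, join_odd] at this)
      rw [pth, pth] at h1
      have h2 := congrArg List.getLast? h1
      simp only [List.getLast?_append, List.getLast?_singleton, Option.some_or,
        Option.some.injEq] at h2
      exact h2.symm)
  refine ⟨join p p', fun β hβ hpβ w => ?_⟩
  have h1 := (TLe.left p p').trans hpβ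
  have h2 := (TLe.right p p').trans hpβ
  exact ⟨hp (⟨β, hβ⟩, w) _ (h1.trans (TLe.left β w)) (TLe.refl _),
    hp' (⟨β, hβ⟩, w) _ (h2.trans (TLe.left _ _)) (TLe.refl _)⟩

end

end Pool.Agent.Helper38.E1
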